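import Pool.Agent.Helper34.CAR.GoalsC
import Pool.Agent.Helper91.CR.TTOW

/-!
# Project CAR stage 5, packet TAFZ: tracial rank zero when the algebra is zero.
-/

open scoped ComplexOrder ZeroAtInfty
open TopologicalSpace

namespace Pool.Agent.Helper91.CAR

open Pool.Agent.Helper34.CAR Pool.Agent.Helper39.CR Pool.Agent.Helper39.Uct

theorem tafz : S_TAFZ := by
  intro E _ hE s L _ ι hlim γ Z n hfix
  -- finite dimension
  have hX : ∀ f : C₀(ℝ, E), f = 0 := by
    intro f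
    ext x
    exact hE _
  have hB : FiniteDimensional ℂ (Unitization ℂ C₀(ℝ, E)) := by
    let g : Unitization ℂ C₀(ℝ, E) →ₗ[ℂ] ℂ := (Unitization.fstHom ℂ C₀(ℝ, E)).toLinearMap
    refine FiniteDimensional.of_injective g ?_
    intro x y hxy
    have h1 : x.fst = y.fst := hxy
    refine Unitization.ext h1 ?_
    rw [hX x.snd, hX y.snd]
  have hG : ∀ k, FiniteDimensional ℂ (Gd (Unitization ℂ C₀(ℝ, E)) (wz s n k)) := by
    intro k
    let g : Gd (Unitization ℂ C₀(ℝ, E)) (wz s n k) →ₗ[ℂ]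
        (s.S k → s.S k → Unitization ℂ C₀(ℝ, E)) :=
      { toFun := fun a x y ↦ a.1 x y
        map_add' := fun a b ↦ rfl
        map_smul' := fun c a ↦ rfl }
    refine FiniteDimensional.of_injective g ?_
    intro a b hab
    apply Subtype.ext
    refine Mt.ext fun x y ↦ ?_
    exact congrFun (congrFun hab x) y
  obtain ⟨u, hu, huinj, hukd, hdense⟩ :=
    Pool.Agent.Helper91.CR.ttow _ _ s L ι hlim γ Z n hfix
  intro S a ε ha hε
  -- one stage
  have hone : ∀ x : Fix γ Z, ∃ i, ∃ b : Gd (Unitization ℂ C₀(ℝ, E)) (wz s n i), ‖x - u i b‖ < ε := by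
    intro x
    obtain ⟨i, b, hb, hlt⟩ := hfix.2 x.1 x.2 ε hε
    refine ⟨i, ⟨b, hb⟩, ?_⟩
    change ‖(x : L) - ((u i ⟨b, hb⟩ : Fix γ Z) : L)‖ < ε
    rw [hu]
    exact hlt
  have hmono : ∀ x : Fix γ Z, ∀ i, (∃ b : Gd (Unitization ℂ C₀(ℝ, E)) (wz s n i), ‖x - u i b‖ < ε) →
      ∀ d, ∃ b : Gd (Unitization ℂ C₀(ℝ, E)) (wz s n (i + d)), ‖x - u (i + d) b‖ < ε := by
    intro x i hi d
    induction d with
    | zero => exact hi
    | succ d ih =>
      obtain ⟨b, hb⟩ := ih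
      refine ⟨kd s n (i + d) b, ?_⟩
      have := hukd (i + d) b
      change ‖x - u (i + d + 1) (kd s n (i + d) b)‖ < ε
      rw [this]
      exact hb
  choose i hi using hone
  set k := S.sup i with hk
  have hall : ∀ x ∈ S, ∃ b : Gd (Unitization ℂ C₀(ℝ, E)) (wz s n k), ‖x - u k b‖ < ε := by
    intro x hx
    have h1 : i x ≤ k := Finset.le_sup hx
    obtain ⟨d, hd⟩ := Nat.exists_eq_add_of_le h1
    rw [hd]
    exact hmono x (i x) (hi x) d
  -- the unit
  have h1m : (1 : s.A k) ∈ grd (Unitization ℂ C₀(ℝ, E)) (wz s n k) := by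
    intro x y hxy
    exact Mt.one_apply_ne fun h ↦ hxy (by rw [h])
  set p : Fix γ Z := u k ⟨1, h1m⟩ with hp
  have hp1 : (p : L) = 1 := by rw [hp, hu]; exact map_one (ι k)
  have hpl : ∀ x : Fix γ Z, p * x = x := by
    intro x
    apply Subtype.ext
    change (p : L) * x = x
    rw [hp1, one_mul]
  have hpr : ∀ x : Fix γ Z, x * p = x := by
    intro x
    apply Subtype.ext
    change (x : L) * p = x
    rw [hp1, mul_one]
  have hp0 : p ≠ 0 := by
    intro h0
    apply ha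
    rw [← hpl a, h0, zero_mul]
  let C : NonUnitalStarSubalgebra ℂ (Fix γ Z) := NonUnitalStarAlgHom.range (u k)
  have hCfin : FiniteDimensional ℂ C := by
    have := hG k
    let g : Gd (Unitization ℂ C₀(ℝ, E)) (wz s n k) →ₗ[ℂ] C :=
      { toFun := fun b ↦ ⟨u k b, ⟨b, rfl⟩⟩
        map_add' := fun b c ↦ Subtype.ext (map_add (u k) b c)
        map_smul' := fun c b ↦ Subtype.ext (map_smul (u k) c b) }
    refine Module.Finite.of_surjective g ?_
    rintro ⟨x, b, hb⟩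
    exact ⟨b, Subtype.ext hb⟩
  refine ⟨C, p, 0, hCfin, ⟨⟨1, h1m⟩, rfl⟩, hp0, fun c _ ↦ hpl c, ?_, ?_⟩
  · intro x hx
    refine ⟨?_, ?_⟩
    · rw [hpl, hpr, sub_self, norm_zero]
      exact hε
    · obtain ⟨b, hb⟩ := hall x hx
      refine ⟨u k b, ⟨b, rfl⟩, ?_⟩
      rw [hpl, hpr]
      exact hb
  · intro x
    rw [mul_zero, mul_zero, add_zero]
    exact ⟨hpl x, hpr x⟩

end Pool.Agent.Helper91.CAR
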